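import Pool.Agent.Run7.h508.Pt.Trf
import Pool.Agent.H986R2.K4.V0

set_option autoImplicit false

/-!
# The criterion
-/

namespace Pool.Agent.Run7.h508.Pt

open Complex Filter Topology Finset
open Pool.Agent.H986R2.K4.VdCAux

/-- a zero-free half-plane -/
def Half : Prop := ∃ σ₀ : ℝ, 1 / 2 < σ₀ ∧ σ₀ < 1 ∧ ∀ s : ℂ, σ₀ ≤ s.re → riemannZeta s ≠ 0

/-- the local criterion implies a half-plane -/
theorem half_of_local {a A C δ σ₁ T : ℝ} (ha : 0 < a) (hA : 0 < A) (hC : 0 < C) (hδ : 0 < δ) (hσ : σ₁ < 1)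
    (h : ∀ t : ℝ, T ≤ t → ∃ (N : ℕ) (b : ℕ → ℂ), 1 ≤ N ∧ IsTr C δ N b ∧ (N : ℝ) ^ a ≤ t ∧ t ≤ (N : ℝ) ^ A ∧
      ∀ s : ℂ, σ₁ ≤ s.re → |s.im - t| ≤ 10 → TS b N s ≠ 0) : Half := by
  by_contra hcon
  have hq : ∀ y : ℝ, y < 1 / 2 → ∃ s : ℂ, 1 / 2 + y < s.re ∧ riemannZeta s = 0 := by
    intro y hy
    by_contra hc
    push Not at hc
    refine hcon ⟨(max (1 / 2 + y) (1 / 2) + 1) / 2, ?_, ?_, fun s hs => hc s ?_⟩
    · have := le_max_right (1 / 2 + y) (1 / 2)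
      linarith
    · have : max (1 / 2 + y) (1 / 2) < 1 := max_lt (by linarith) (by norm_num)
      linarith
    · have h1 := le_max_left (1 / 2 + y) (1 / 2)
      have h2 : max (1 / 2 + y) (1 / 2) < 1 := max_lt (by linarith) (by norm_num)
      linarith
  obtain ⟨c, hc, htr⟩ := transfer a A C δ ha hA hC hδ
  obtain ⟨T₁, hT₁⟩ := htr ((1 - σ₁) / 2) (by linarith)
  obtain ⟨ρ, hρ, hρ1, -, hρT⟩ := Pool.Agent.H986R2.K4.v0 hq (min c ((1 - σ₁) / 2)) (max T T₁)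
    (lt_min hc (by linarith))
  obtain ⟨N, b, hN, hb, h1, h2, h3⟩ := h ρ.im ((le_max_left _ _).trans hρT)
  have k1 := min_le_left c ((1 - σ₁) / 2)
  have k2 := min_le_right c ((1 - σ₁) / 2)
  obtain ⟨s, hs, hs1, hs2⟩ := (hT₁ N b hN hb).1 ρ hρ (by linarith) ((le_max_right _ _).trans hρT) h1 h2
  exact h3 s (by linarith) hs2 hs

lemma IsTr.conj {C δ : ℝ} {N : ℕ} {b : ℕ → ℂ} (h : IsTr C δ N b) :
    IsTr C δ N fun n => (starRingEnd ℂ) (b n) where
  zero n hn := by rw [h.zero n hn, map_zero]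
  one := by
    have h1 := h.one
    have e1 : (starRingEnd ℂ) (b 1) - 1 = (starRingEnd ℂ) (b 1 - 1) := by rw [map_sub, map_one]
    rw [e1, RCLike.norm_conj]
    exact h1
  var m hm hmN := by
    have h1 := h.var m hm hmN
    refine le_trans (le_of_eq (sum_congr rfl fun n _ => ?_)) h1
    rw [← map_sub, RCLike.norm_conj]

lemma TS_conj (b : ℕ → ℂ) (N : ℕ) (s : ℂ) : TS (fun n => (starRingEnd ℂ) (b n)) N ((starRingEnd ℂ) s) =
    (starRingEnd ℂ) (TS b N s) := by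
  unfold TS
  rw [map_sum]
  refine sum_congr rfl fun n _ => ?_
  rw [map_mul, ← map_neg]
  congr 1
  have h0 : (((n + 1 : ℕ) : ℂ)).arg ≠ Real.pi := by
    rw [Complex.natCast_arg]
    exact Real.pi_ne_zero.symm
  rw [Complex.cpow_conj _ _ h0]
  congr 2
  exact (Complex.conj_natCast _)

/-- a half-plane implies that all truncations have no zeros near the line `Re s = 1` in polynomial
ranges -/
theorem unif_of_half (h : Half) (a A C δ : ℝ) (ha : 0 < a) (hA : 0 < A) (hC : 0 < C) (hδ : 0 < δ) :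
    ∃ (σ₁ : ℝ) (N₀ : ℕ), σ₁ < 1 ∧ ∀ N : ℕ, N₀ ≤ N → ∀ b : ℕ → ℂ, IsTr C δ N b → ∀ s : ℂ, σ₁ ≤ s.re →
      (N : ℝ) ^ a ≤ |s.im| → |s.im| ≤ (N : ℝ) ^ A → TS b N s ≠ 0 := by
  obtain ⟨σ₀, -, h2, h3⟩ := h
  obtain ⟨c, hc, htr⟩ := transfer a A C δ ha hA hC hδ
  obtain ⟨T, hT⟩ := htr ((1 - σ₀) / 2) (by linarith)
  have hlim : Tendsto (fun N : ℕ => (N : ℝ) ^ a) atTop atTop :=
    (tendsto_rpow_atTop ha).comp tendsto_natCast_atTop_atTop
  obtain ⟨N₁, hN₁⟩ := eventually_atTop.1 (hlim.eventually_ge_atTop T)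
  have key : ∀ N : ℕ, max N₁ 1 ≤ N → ∀ b : ℕ → ℂ, IsTr C δ N b → ∀ s : ℂ, max (1 - c) ((1 + σ₀) / 2) ≤ s.re →
      (N : ℝ) ^ a ≤ s.im → s.im ≤ (N : ℝ) ^ A → TS b N s ≠ 0 := by
    intro N hN b hb s hs h4 h5 h0
    have k1 := le_max_left (1 - c) ((1 + σ₀) / 2)
    have k2 := le_max_right (1 - c) ((1 + σ₀) / 2)
    obtain ⟨ρ, hρ, hρ1, -⟩ := (hT N b ((le_max_right _ _).trans hN) hb).2 s h0 (by linarith)
      ((hN₁ N ((le_max_left _ _).trans hN)).trans h4) h4 h5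
    exact h3 ρ (by linarith) hρ
  refine ⟨max (1 - c) ((1 + σ₀) / 2), max N₁ 1, max_lt (by linarith) (by linarith), ?_⟩
  intro N hN b hb s hs h4 h5
  rcases le_or_gt 0 s.im with h6 | h6
  · rw [abs_of_nonneg h6] at h4 h5
    exact key N hN b hb s hs h4 h5
  · rw [abs_of_neg h6] at h4 h5
    have h7 := key N hN _ hb.conj ((starRingEnd ℂ) s) (by rw [Complex.conj_re]; exact hs)
      (by rw [Complex.conj_im]; exact h4) (by rw [Complex.conj_im]; exact h5)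
    rw [TS_conj] at h7
    intro h0
    exact h7 (by rw [h0, map_zero])

/-- the partial sums -/
lemma isTr_one (N : ℕ) (hN : 1 ≤ N) : IsTr 1 1 N fun n => if n ≤ N then 1 else 0 where
  zero n hn := if_neg (by omega)
  one := by
    rw [if_pos hN, sub_self, norm_zero]
    positivity
  var m hm hmN := by
    have hN0 : (0 : ℝ) < N := by exact_mod_cast hN
    rw [one_mul, Real.rpow_one]
    rcases Nat.lt_or_ge m N with h | h
    · rw [sum_eq_zero]
      · positivity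
      · intro n hn
        rw [Finset.mem_range] at hn
        rw [if_pos (by omega), if_pos (by omega), sub_self, norm_zero]
    · have h1 : m = N := by omega
      subst h1
      rw [div_self hN0.ne']
      obtain ⟨k, rfl⟩ : ∃ k, m = k + 1 := ⟨m - 1, by omega⟩
      rw [sum_range_succ, sum_eq_zero]
      · rw [if_pos le_rfl, if_neg (by omega)]
        norm_num
      · intro n hn
        rw [Finset.mem_range] at hn
        rw [if_pos (by omega), if_pos (by omega), sub_self, norm_zero]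

/-- windows -/
lemma window {a A : ℝ} (ha : 0 < a) (haA : a < A) (N₀ : ℕ) : ∃ T : ℝ, ∀ t : ℝ, T ≤ t → ∃ N : ℕ, N₀ ≤ N ∧ 1 ≤ N ∧
    (N : ℝ) ^ a ≤ t - 10 ∧ t + 10 ≤ (N : ℝ) ^ A := by
  obtain ⟨B, hB⟩ : ∃ B : ℝ, B = (a + A) / 2 := ⟨_, rfl⟩
  have haB : a < B := by rw [hB]; linarith
  have hBA : B < A := by rw [hB]; linarith
  have hB0 : 0 < B := by linarith
  have e1 : 1 < A / B := (one_lt_div hB0).2 hBA
  have e2 : a / B < 1 := (div_lt_one hB0).2 haB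
  have hev : ∀ᶠ t : ℝ in atTop, (N₀ : ℝ) + 1 ≤ t ^ (1 / B) ∧ t + 10 ≤ t ^ (A / B) ∧
      (2 : ℝ) ^ a * t ^ (a / B) ≤ t - 10 ∧ 1 ≤ t := by
    have l1 : Tendsto (fun t : ℝ => t ^ (1 / B)) atTop atTop := tendsto_rpow_atTop (by positivity)
    have l2 : Tendsto (fun t : ℝ => t ^ (A / B - 1)) atTop atTop := tendsto_rpow_atTop (by linarith)
    have l3 : Tendsto (fun t : ℝ => (2 : ℝ) ^ a * t ^ (-(1 - a / B))) atTop (𝓝 0) := by
      have := (tendsto_rpow_neg_atTop (show (0 : ℝ) < 1 - a / B by linarith)).const_mul ((2 : ℝ) ^ a)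
      rwa [mul_zero] at this
    filter_upwards [l1.eventually_ge_atTop ((N₀ : ℝ) + 1), l2.eventually_ge_atTop 2,
      l3.eventually (gt_mem_nhds (show (0 : ℝ) < 1 / 2 by norm_num)), eventually_ge_atTop 20] with t k1 k2 k3 k4
    have ht0 : 0 < t := by linarith
    refine ⟨k1, ?_, ?_, by linarith⟩
    · have : t ^ (A / B) = t ^ (A / B - 1) * t := by
        nth_rewrite 3 [← Real.rpow_one t]
        rw [← Real.rpow_add ht0]
        congr 1
        ring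
      rw [this]
      nlinarith
    · have : t ^ (a / B) = t ^ (-(1 - a / B)) * t := by
        nth_rewrite 3 [← Real.rpow_one t]
        rw [← Real.rpow_add ht0]
        congr 1
        ring
      rw [this, ← mul_assoc]
      nlinarith
  obtain ⟨T, hT⟩ := eventually_atTop.1 hev
  refine ⟨T, fun t ht => ?_⟩
  obtain ⟨k1, k2, k3, k4⟩ := hT t ht
  have ht0 : 0 < t := by linarith
  have hle : t ^ (1 / B) ≤ (⌈t ^ (1 / B)⌉₊ : ℝ) := Nat.le_ceil _
  have hlt : (⌈t ^ (1 / B)⌉₊ : ℝ) < t ^ (1 / B) + 1 := Nat.ceil_lt_add_one (by positivity)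
  have h1 : (1 : ℝ) ≤ t ^ (1 / B) := by
    have : (0 : ℝ) ≤ N₀ := Nat.cast_nonneg _
    linarith
  refine ⟨⌈t ^ (1 / B)⌉₊, ?_, ?_, ?_, ?_⟩
  · have : (N₀ : ℝ) ≤ (⌈t ^ (1 / B)⌉₊ : ℝ) := by linarith
    exact_mod_cast this
  · have : (1 : ℝ) ≤ (⌈t ^ (1 / B)⌉₊ : ℝ) := by linarith
    exact_mod_cast this
  · refine le_trans ?_ k3
    calc (⌈t ^ (1 / B)⌉₊ : ℝ) ^ a ≤ (2 * t ^ (1 / B)) ^ a :=
          Real.rpow_le_rpow (by positivity) (by linarith) ha.le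
      _ = 2 ^ a * t ^ (a / B) := by
          rw [Real.mul_rpow (by norm_num) (by positivity), ← Real.rpow_mul ht0.le]
          congr 2
          ring
  · refine k2.trans ?_
    calc t ^ (A / B) = (t ^ (1 / B)) ^ A := by
          rw [← Real.rpow_mul ht0.le]
          congr 1
          ring
      _ ≤ (⌈t ^ (1 / B)⌉₊ : ℝ) ^ A := Real.rpow_le_rpow (by positivity) hle (by linarith)

end Pool.Agent.Run7.h508.Pt
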