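import Pool.Agent.H986R2.K4.VdC

set_option autoImplicit false

/-!
# Partial sums of the zeta function near the line `Re s = 1`
-/

namespace Pool.Agent.Run7.h508.Pt

open Complex Filter Topology Finset
open Pool.Agent.H986R2.K4.VdCAux
open Pool.Agent.H469R2.NK (e norm_e)

/-- the tail of the truncated formula -/
theorem tail' {ε t : ℝ} (hε : -1 ≤ ε) (hε4 : ε ≤ 1 / 4) (ht : 2 ≤ t) {N : ℕ} (hN : 1 ≤ N) :
    ‖riemannZeta ((1 : ℂ) - ε + t * I) - PS ((1 : ℂ) - ε + t * I) N‖ ≤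
      (N : ℝ) ^ ε / t + 2 * (2 + t) * (N : ℝ) ^ (ε - 1) := by
  set s : ℂ := (1 : ℂ) - ε + t * I with hs
  have hre : s.re = 1 - ε := by simp [hs]
  have him : s.im = t := by simp [hs]
  have hs0 : 0 < s.re := by rw [hre]; linarith
  have hs1 : s ≠ 1 := by
    intro h
    rw [h] at him
    simp at him
    linarith
  have hN0 : (0 : ℝ) < N := by exact_mod_cast hN
  rw [Pool.Agent.H307R2.zeta_eq hN hs0 hs1, PS_eq]
  have e1 : PS s N + (N : ℂ) ^ (1 - s) / (s - 1) +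
      s * Pool.Agent.H307R2.TM N Pool.Agent.H307R2.Ez s - PS s N =
      (N : ℂ) ^ (1 - s) / (s - 1) + s * Pool.Agent.H307R2.TM N Pool.Agent.H307R2.Ez s := by ring
  rw [e1]
  refine (norm_add_le _ _).trans ?_
  have n1 : ‖(N : ℂ) ^ (1 - s)‖ = (N : ℝ) ^ ε := by
    have := Complex.norm_cpow_eq_rpow_re_of_pos hN0 (1 - s)
    rw [Complex.ofReal_natCast] at this
    rw [this]
    simp [hre]
  have n2 : t ≤ ‖s - 1‖ := by
    have := Complex.abs_im_le_norm (s - 1)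
    have h3 : (s - 1).im = s.im := by simp
    rw [h3, him] at this
    exact (le_abs_self _).trans this
  have n3 : ‖s‖ ≤ 2 + t := by
    refine (Complex.norm_le_abs_re_add_abs_im s).trans ?_
    rw [hre, him, abs_of_nonneg (by linarith), abs_of_nonneg (by linarith)]
    linarith
  have n4 := Pool.Agent.H307R2.TM_norm_le hN Pool.Agent.H307R2.Ez_norm_le hs0
  apply add_le_add
  · rw [norm_div, n1]
    apply div_le_div_of_nonneg_left (by positivity) (by linarith) n2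
  · rw [norm_mul]
    have n5 : ‖Pool.Agent.H307R2.TM N Pool.Agent.H307R2.Ez s‖ ≤ 2 * (N : ℝ) ^ (ε - 1) := by
      refine n4.trans ?_
      rw [hre, one_mul, div_le_iff₀ (by linarith)]
      have e2 : -(1 - ε) = ε - 1 := by ring
      rw [e2]
      have : 0 < (N : ℝ) ^ (ε - 1) := Real.rpow_pos_of_pos hN0 _
      nlinarith
    calc ‖s‖ * ‖Pool.Agent.H307R2.TM N Pool.Agent.H307R2.Ez s‖
        ≤ (2 + t) * (2 * (N : ℝ) ^ (ε - 1)) :=
          mul_le_mul n3 n5 (norm_nonneg _) (by linarith)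
      _ = 2 * (2 + t) * (N : ℝ) ^ (ε - 1) := by ring

/-- one dyadic block -/
theorem block' {M : ℕ} {η C : ℝ}
    (hv : ∀ (J L : ℕ) (u ξ : ℝ), 1 ≤ J →
      (J : ℝ) ≤ u → L ≤ J → u + L ≤ 3 * J → (J : ℝ) ^ (1 / 2 : ℝ) ≤ |ξ| → |ξ| ≤ (J : ℝ) ^ M →
      ‖∑ n ∈ range L, e (ξ * Real.log (u + n))‖ ≤ C * (J : ℝ) ^ (1 - η))
    (_hη : 0 < η) (hC : 0 < C) {ε t : ℝ} (hε4 : ε ≤ 1 / 4) (hεη : ε ≤ η / 2)
    (ht : 0 < t) {J : ℕ} (hJ : 1 ≤ J)
    (h1 : (J : ℝ) ^ (1 / 2 : ℝ) ≤ t / (2 * Real.pi)) (h2 : t / (2 * Real.pi) ≤ (J : ℝ) ^ M) :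
    ‖PS ((1 : ℂ) - ε + t * I) (J + J) - PS ((1 : ℂ) - ε + t * I) J‖ ≤ C * (J : ℝ) ^ (-(η / 2)) := by
  have hJ' : (1 : ℝ) ≤ J := by exact_mod_cast hJ
  have hJ0 : (0 : ℝ) < J := by linarith
  have e1 : PS ((1 : ℂ) - ε + t * I) (J + J) - PS ((1 : ℂ) - ε + t * I) J =
      ∑ n ∈ range J, (((((J : ℝ) + 1 + n) ^ (ε - 1) : ℝ)) : ℂ) *
        e (-(t / (2 * Real.pi)) * Real.log ((J : ℝ) + 1 + n)) := by
    unfold PS
    rw [sum_range_add, add_sub_cancel_left]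
    apply sum_congr rfl
    intro n _
    rw [term_eq ε t ((J : ℝ) + 1 + n) (by positivity) (J + n + 1) (by push_cast; ring)]
  rw [e1]
  have habs : |-(t / (2 * Real.pi))| = t / (2 * Real.pi) := by
    rw [abs_neg, abs_of_pos (by positivity)]
  have h3 := abel (fun n => ((J : ℝ) + 1 + n) ^ (ε - 1))
    (fun n => e (-(t / (2 * Real.pi)) * Real.log ((J : ℝ) + 1 + n)))
    (C * (J : ℝ) ^ (1 - η)) J ?_ ?_ ?_
  · refine h3.trans ?_
    have h4 : ((J : ℝ) + 1 + ((0 : ℕ) : ℝ)) ^ (ε - 1) ≤ (J : ℝ) ^ (ε - 1) := by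
      apply Real.rpow_le_rpow_of_nonpos hJ0 (by simp) (by linarith)
    calc ((J : ℝ) + 1 + ((0 : ℕ) : ℝ)) ^ (ε - 1) * (C * (J : ℝ) ^ (1 - η))
        ≤ (J : ℝ) ^ (ε - 1) * (C * (J : ℝ) ^ (1 - η)) :=
          mul_le_mul_of_nonneg_right h4 (by positivity)
      _ = C * (J : ℝ) ^ (ε - η) := by
          have : (J : ℝ) ^ (ε - η) = (J : ℝ) ^ (ε - 1) * (J : ℝ) ^ (1 - η) := by
            rw [← Real.rpow_add hJ0]; ring_nf
          rw [this]; ring
      _ ≤ C * (J : ℝ) ^ (-(η / 2)) := by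
          apply mul_le_mul_of_nonneg_left _ hC.le
          exact Real.rpow_le_rpow_of_exponent_le hJ' (by linarith)
  · intro n
    apply Real.rpow_le_rpow_of_nonpos (by positivity) _ (by linarith)
    push_cast
    linarith
  · positivity
  · intro m hm
    have hm' : (m : ℝ) ≤ J := by exact_mod_cast hm
    exact hv J m ((J : ℝ) + 1) (-(t / (2 * Real.pi))) hJ (by linarith) hm (by linarith)
      (by rw [habs]; exact h1) (by rw [habs]; exact h2)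

/-- all dyadic blocks -/
theorem blocks' {M : ℕ} {η C : ℝ}
    (hv : ∀ (J L : ℕ) (u ξ : ℝ), 1 ≤ J →
      (J : ℝ) ≤ u → L ≤ J → u + L ≤ 3 * J → (J : ℝ) ^ (1 / 2 : ℝ) ≤ |ξ| → |ξ| ≤ (J : ℝ) ^ M →
      ‖∑ n ∈ range L, e (ξ * Real.log (u + n))‖ ≤ C * (J : ℝ) ^ (1 - η))
    (hη : 0 < η) (hC : 0 < C) {ε t : ℝ} (hε4 : ε ≤ 1 / 4) (hεη : ε ≤ η / 2)
    (ht : 0 < t) {J : ℕ} (hJ : 1 ≤ J) (h2 : t / (2 * Real.pi) ≤ (J : ℝ) ^ M) :
    ∀ K : ℕ, (2 : ℝ) ^ K * J ≤ t ^ 2 / 20 →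
    ‖PS ((1 : ℂ) - ε + t * I) (2 ^ K * J) - PS ((1 : ℂ) - ε + t * I) J‖ ≤
      C * (J : ℝ) ^ (-(η / 2)) * ∑ i ∈ range K, ((2 : ℝ) ^ (-(η / 2))) ^ i := by
  have hJ' : (1 : ℝ) ≤ J := by exact_mod_cast hJ
  intro K
  induction K with
  | zero => intro _; simp
  | succ K ih =>
    intro hK
    have hK' : (2 : ℝ) ^ K * J ≤ t ^ 2 / 40 := by
      rw [pow_succ] at hK
      linarith
    have hKp : (1 : ℝ) ≤ 2 ^ K := one_le_pow₀ (by norm_num)
    have ih' := ih (by nlinarith [sq_nonneg t])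
    have hcast : ((2 ^ K * J : ℕ) : ℝ) = (2 : ℝ) ^ K * J := by push_cast; ring
    have hb := block' hv hη hC hε4 hεη ht (J := 2 ^ K * J)
      (Nat.mul_pos (pow_pos (by norm_num) K) hJ) ?_ ?_
    · have e1 : 2 ^ (K + 1) * J = 2 ^ K * J + 2 ^ K * J := by ring
      rw [e1, sum_range_succ, mul_add]
      have e2 : PS ((1 : ℂ) - ε + t * I) (2 ^ K * J + 2 ^ K * J) - PS ((1 : ℂ) - ε + t * I) J =
          (PS ((1 : ℂ) - ε + t * I) (2 ^ K * J + 2 ^ K * J) -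
            PS ((1 : ℂ) - ε + t * I) (2 ^ K * J)) +
          (PS ((1 : ℂ) - ε + t * I) (2 ^ K * J) - PS ((1 : ℂ) - ε + t * I) J) := by ring
      rw [e2]
      refine (norm_add_le _ _).trans ?_
      have h5 : C * ((2 ^ K * J : ℕ) : ℝ) ^ (-(η / 2)) =
          C * (J : ℝ) ^ (-(η / 2)) * ((2 : ℝ) ^ (-(η / 2))) ^ K := by
        rw [hcast, Real.mul_rpow (by positivity) (by positivity)]
        have : ((2 : ℝ) ^ K) ^ (-(η / 2)) = ((2 : ℝ) ^ (-(η / 2))) ^ K := by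
          rw [← Real.rpow_natCast, ← Real.rpow_natCast, ← Real.rpow_mul (by norm_num),
            ← Real.rpow_mul (by norm_num), mul_comm]
        rw [this]
        ring
      linarith
    · rw [hcast, ← Real.sqrt_eq_rpow]
      apply Real.sqrt_le_iff.2
      refine ⟨by positivity, hK'.trans ?_⟩
      have hpi : Real.pi < 3.15 := Real.pi_lt_d2
      have hpi0 : 0 < Real.pi := Real.pi_pos
      rw [div_pow, div_le_div_iff₀ (by norm_num) (by positivity)]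
      have h6 : (2 * Real.pi) ^ 2 ≤ 40 := by nlinarith
      nlinarith [sq_nonneg t]
    · refine h2.trans ?_
      apply pow_le_pow_left₀ (by positivity)
      rw [hcast]
      nlinarith

/-- for `Re s ≥ 2` -/
theorem far {s : ℂ} (hs : 2 ≤ s.re) {N : ℕ} (hN : 1 ≤ N) :
    ‖riemannZeta s - PS s N‖ ≤ 2 * (N : ℝ) ^ (-(1 / 2) : ℝ) := by
  have h1 : (1 : ℝ) < s.re := by linarith
  have hz := zeta_eq_tsum_one_div_nat_add_one_cpow h1
  have hsum : Summable fun n : ℕ => 1 / ((n : ℂ) + 1) ^ s := by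
    have h2 := Complex.summable_one_div_nat_cpow.2 h1
    have h3 := (summable_nat_add_iff 1).2 h2
    refine h3.congr fun n => ?_
    push_cast
    rfl
  have hP : PS s N = ∑ n ∈ range N, 1 / ((n : ℂ) + 1) ^ s := by
    unfold PS
    refine sum_congr rfl fun n _ => ?_
    rw [Complex.cpow_neg, one_div]
    push_cast
    rfl
  have hN' : (1 : ℝ) ≤ N := by exact_mod_cast hN
  rw [hz, hP, ← hsum.sum_add_tsum_nat_add N, add_sub_cancel_left]
  -- comparison with a telescoping sum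
  have hterm : ∀ n : ℕ, ‖1 / (((n + N : ℕ) : ℂ) + 1) ^ s‖ ≤ 1 / ((n : ℝ) + N) - 1 / ((n : ℝ) + N + 1) := by
    intro n
    have e1 : (((n + N : ℕ) : ℂ) + 1) = (((n + N + 1 : ℕ) : ℝ) : ℂ) := by push_cast; ring
    rw [norm_div, norm_one, e1, Complex.norm_cpow_eq_rpow_re_of_pos (by positivity)]
    have h3 : ((n + N + 1 : ℕ) : ℝ) ^ (2 : ℝ) ≤ ((n + N + 1 : ℕ) : ℝ) ^ s.re :=
      Real.rpow_le_rpow_of_exponent_le (by push_cast; linarith [Nat.cast_nonneg (α := ℝ) n]) hs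
    rw [show (2 : ℝ) = ((2 : ℕ) : ℝ) by norm_num, Real.rpow_natCast] at h3
    have h4 : 1 / ((n + N + 1 : ℕ) : ℝ) ^ s.re ≤ 1 / ((n + N + 1 : ℕ) : ℝ) ^ 2 :=
      one_div_le_one_div_of_le (by positivity) h3
    refine h4.trans ?_
    have h5 : (0 : ℝ) ≤ n := Nat.cast_nonneg n
    push_cast
    rw [div_sub_div _ _ (by positivity) (by positivity), div_le_div_iff₀ (by positivity) (by positivity)]
    nlinarith
  have hbd : ∀ m : ℕ, ∑ n ∈ range m, ‖1 / (((n + N : ℕ) : ℂ) + 1) ^ s‖ ≤ 1 / (N : ℝ) := by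
    intro m
    refine (sum_le_sum fun n _ => hterm n).trans ?_
    have h3 := Finset.sum_range_sub' (fun n : ℕ => 1 / ((n : ℝ) + N)) m
    have h4 : ∑ n ∈ range m, (1 / ((n : ℝ) + N) - 1 / ((n : ℝ) + N + 1)) =
        ∑ n ∈ range m, (1 / ((n : ℝ) + N) - 1 / (((n + 1 : ℕ) : ℝ) + N)) := by
      refine sum_congr rfl fun n _ => ?_
      push_cast
      ring_nf
    rw [h4, h3]
    have h5 : 0 ≤ 1 / ((m : ℝ) + N) := by positivity
    simp only [Nat.cast_zero, zero_add]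
    linarith
  have hs1 : Summable fun n : ℕ => ‖1 / (((n + N : ℕ) : ℂ) + 1) ^ s‖ :=
    summable_of_sum_range_le (fun _ => norm_nonneg _) hbd
  have h6 : ‖∑' n : ℕ, 1 / (((n + N : ℕ) : ℂ) + 1) ^ s‖ ≤ 1 / (N : ℝ) :=
    (norm_tsum_le_tsum_norm hs1).trans (Real.tsum_le_of_sum_range_le (fun _ => norm_nonneg _) hbd)
  refine h6.trans ?_
  have h7 : 1 / (N : ℝ) = (N : ℝ) ^ (-1 : ℝ) := by rw [Real.rpow_neg_one, one_div]
  rw [h7]
  have h8 : (N : ℝ) ^ (-1 : ℝ) ≤ (N : ℝ) ^ (-(1 / 2) : ℝ) :=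
    Real.rpow_le_rpow_of_exponent_le hN' (by norm_num)
  have h9 : 0 ≤ (N : ℝ) ^ (-(1 / 2) : ℝ) := by positivity
  linarith

/-- the partial sums are close to zeta for polynomial heights -/
theorem close (a A : ℝ) (ha : 0 < a) (hA : 0 < A) : ∃ e₀ c C : ℝ, 0 < e₀ ∧ e₀ ≤ 1 / 4 ∧ 0 < c ∧ 0 < C ∧
    ∀ (N : ℕ) (s : ℂ), 1 ≤ N → 2 ≤ s.im → (N : ℝ) ^ a ≤ s.im → s.im ≤ (N : ℝ) ^ A → 1 - e₀ ≤ s.re →
      ‖riemannZeta s - PS s N‖ ≤ C * (N : ℝ) ^ (-c) := by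
  obtain ⟨M, hM⟩ := exists_nat_ge A
  obtain ⟨η, hη, C, hC, hv⟩ := Pool.Agent.H442R2.EHI.vdc_log M
  obtain ⟨q, hq⟩ : ∃ q : ℝ, q = (2 : ℝ) ^ (-(η / 2)) := ⟨_, rfl⟩
  have hq0 : 0 < q := by rw [hq]; positivity
  have hq1 : q < 1 := by
    rw [hq]
    exact Real.rpow_lt_one_of_one_lt_of_neg (by norm_num) (by linarith)
  obtain ⟨e₀, he₀⟩ : ∃ e₀ : ℝ, e₀ = min (min (1 / 8) (η / 2)) (a / 2) := ⟨_, rfl⟩
  have he1 : e₀ ≤ 1 / 8 := by rw [he₀]; exact (min_le_left _ _).trans (min_le_left _ _)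
  have he2 : e₀ ≤ η / 2 := by rw [he₀]; exact (min_le_left _ _).trans (min_le_right _ _)
  have he3 : e₀ ≤ a / 2 := by rw [he₀]; exact min_le_right _ _
  have he0 : 0 < e₀ := by rw [he₀]; positivity
  obtain ⟨c, hc⟩ : ∃ c : ℝ, c = min (min (3 / 8) (η / 2)) (a / 2) := ⟨_, rfl⟩
  have hc1 : c ≤ 3 / 8 := by rw [hc]; exact (min_le_left _ _).trans (min_le_left _ _)
  have hc2 : c ≤ η / 2 := by rw [hc]; exact (min_le_left _ _).trans (min_le_right _ _)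
  have hc3 : c ≤ a / 2 := by rw [hc]; exact min_le_right _ _
  have hc0 : 0 < c := by rw [hc]; positivity
  refine ⟨e₀, c, C / (1 - q) + 400, he0, by linarith, hc0, ?_, ?_⟩
  · have : 0 < 1 - q := by linarith
    positivity
  intro N s hN hs2 h1 h2 hre
  have hN' : (1 : ℝ) ≤ N := by exact_mod_cast hN
  have hN0 : (0 : ℝ) < N := by linarith
  have hcq : 0 ≤ C / (1 - q) := by
    have : 0 < 1 - q := by linarith
    positivity
  have hNc : 0 < (N : ℝ) ^ (-c) := Real.rpow_pos_of_pos hN0 _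
  rcases le_or_gt 2 s.re with hs | hs
  · refine (far hs hN).trans ?_
    have h3 : (N : ℝ) ^ (-(1 / 2) : ℝ) ≤ (N : ℝ) ^ (-c) :=
      Real.rpow_le_rpow_of_exponent_le hN' (by linarith)
    nlinarith
  obtain ⟨ε, hε⟩ : ∃ ε : ℝ, ε = 1 - s.re := ⟨_, rfl⟩
  obtain ⟨t, ht⟩ : ∃ t : ℝ, t = s.im := ⟨_, rfl⟩
  have hst : s = (1 : ℂ) - ε + t * I := by
    apply Complex.ext
    · simp [hε]
    · simp [ht]
  rw [← ht] at hs2 h1 h2
  have ht0 : 0 < t := by linarith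
  have hε1 : -1 ≤ ε := by rw [hε]; linarith
  have hεe : ε ≤ e₀ := by rw [hε]; linarith
  have hε4 : ε ≤ 1 / 4 := by linarith
  rw [hst]
  rcases le_or_gt (N : ℝ) (t ^ 2 / 20) with hNt | hNt
  · -- long range
    have hx : 1 ≤ t ^ 2 / 20 / N := by
      rw [le_div_iff₀ (by linarith)]
      linarith
    obtain ⟨K, hK1, hK2⟩ := exists_nat_pow_near hx (show (1 : ℝ) < 2 by norm_num)
    have hK1' : (2 : ℝ) ^ K * N ≤ t ^ 2 / 20 := by
      rwa [le_div_iff₀ (by linarith)] at hK1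
    have hK2' : t ^ 2 / 40 ≤ (2 : ℝ) ^ K * N := by
      rw [div_lt_iff₀ (by linarith), pow_succ (2 : ℝ) K] at hK2
      linarith
    have hxi : t / (2 * Real.pi) ≤ (N : ℝ) ^ M := by
      have hpi : 3 < Real.pi := Real.pi_gt_three
      calc t / (2 * Real.pi) ≤ t := div_le_self ht0.le (by linarith)
        _ ≤ (N : ℝ) ^ A := h2
        _ ≤ (N : ℝ) ^ (M : ℝ) := Real.rpow_le_rpow_of_exponent_le hN' hM
        _ = (N : ℝ) ^ M := Real.rpow_natCast _ _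
    have hb := blocks' hv hη hC hε4 (hεe.trans he2) ht0 hN hxi K hK1'
    have hgeo : ∑ i ∈ Finset.range K, q ^ i ≤ 1 / (1 - q) := by
      rw [le_div_iff₀ (by linarith), mul_comm, mul_neg_geom_sum]
      have : 0 ≤ q ^ K := by positivity
      linarith
    have hNη : (N : ℝ) ^ (-(η / 2)) ≤ (N : ℝ) ^ (-c) :=
      Real.rpow_le_rpow_of_exponent_le hN' (by linarith)
    have hb' : ‖PS ((1 : ℂ) - ε + t * I) (2 ^ K * N) - PS ((1 : ℂ) - ε + t * I) N‖ ≤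
        C / (1 - q) * (N : ℝ) ^ (-c) := by
      refine hb.trans ?_
      rw [← hq]
      calc C * (N : ℝ) ^ (-(η / 2)) * ∑ i ∈ range K, q ^ i ≤ C * (N : ℝ) ^ (-c) * (1 / (1 - q)) := by
            apply mul_le_mul (mul_le_mul_of_nonneg_left hNη hC.le) hgeo
            · exact sum_nonneg fun i _ => by positivity
            · positivity
        _ = C / (1 - q) * (N : ℝ) ^ (-c) := by ring
    have hN1 : 1 ≤ 2 ^ K * N := Nat.mul_pos (pow_pos (by norm_num) K) hN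
    have hNcast : ((2 ^ K * N : ℕ) : ℝ) = (2 : ℝ) ^ K * N := by push_cast; ring
    have htl := tail' hε1 hε4 hs2 hN1
    rw [hNcast] at htl
    obtain ⟨B, hB⟩ : ∃ B : ℝ, B = (2 : ℝ) ^ K * N := ⟨_, rfl⟩
    rw [← hB] at htl hK1' hK2'
    have hB1 : 1 ≤ B := by
      have : (1 : ℝ) ≤ ((2 ^ K * N : ℕ) : ℝ) := by exact_mod_cast hN1
      rw [hB]
      rwa [hNcast] at this
    have htc : t ^ (-(3 / 4) : ℝ) ≤ (N : ℝ) ^ (-c) := by
      calc t ^ (-(3 / 4) : ℝ) ≤ ((N : ℝ) ^ a) ^ (-(3 / 4) : ℝ) :=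
            Real.rpow_le_rpow_of_nonpos (by positivity) h1 (by norm_num)
        _ = (N : ℝ) ^ (a * (-(3 / 4))) := (Real.rpow_mul hN0.le _ _).symm
        _ ≤ (N : ℝ) ^ (-c) := Real.rpow_le_rpow_of_exponent_le hN' (by nlinarith)
    have hBe : B ^ ε / t ≤ t ^ (-(3 / 4) : ℝ) := by
      rw [div_le_iff₀ ht0]
      have e1 : t ^ (-(3 / 4) : ℝ) * t = t ^ (1 / 4 : ℝ) := by
        nth_rewrite 2 [← Real.rpow_one t]
        rw [← Real.rpow_add ht0]
        norm_num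
      rw [e1]
      calc B ^ ε ≤ B ^ (1 / 8 : ℝ) := Real.rpow_le_rpow_of_exponent_le hB1 (by linarith)
        _ ≤ (t ^ 2) ^ (1 / 8 : ℝ) := Real.rpow_le_rpow (by linarith) (by nlinarith) (by norm_num)
        _ = t ^ (1 / 4 : ℝ) := by
            rw [← Real.rpow_natCast, ← Real.rpow_mul ht0.le]
            norm_num
    have hBe2 : 2 * (2 + t) * B ^ (ε - 1) ≤ 160 * t ^ (-(3 / 4) : ℝ) := by
      have h6 : B ^ (ε - 1) ≤ 40 * t ^ (-(7 / 4) : ℝ) := by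
        calc B ^ (ε - 1) ≤ B ^ (-(7 / 8) : ℝ) :=
              Real.rpow_le_rpow_of_exponent_le hB1 (by linarith)
          _ ≤ (t ^ 2 / 40) ^ (-(7 / 8) : ℝ) :=
              Real.rpow_le_rpow_of_nonpos (by positivity) hK2' (by norm_num)
          _ = 40 ^ (7 / 8 : ℝ) * t ^ (-(7 / 4) : ℝ) := by
              rw [div_eq_mul_inv, Real.mul_rpow (by positivity) (by positivity), ← Real.rpow_natCast,
                ← Real.rpow_mul ht0.le, Real.inv_rpow (by norm_num), ← Real.rpow_neg (by norm_num), mul_comm]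
              norm_num
          _ ≤ 40 * t ^ (-(7 / 4) : ℝ) := by
              apply mul_le_mul_of_nonneg_right _ (by positivity)
              calc (40 : ℝ) ^ (7 / 8 : ℝ) ≤ 40 ^ (1 : ℝ) :=
                    Real.rpow_le_rpow_of_exponent_le (by norm_num) (by norm_num)
                _ = 40 := Real.rpow_one 40
      have e1 : t * t ^ (-(7 / 4) : ℝ) = t ^ (-(3 / 4) : ℝ) := by
        nth_rewrite 1 [← Real.rpow_one t]
        rw [← Real.rpow_add ht0]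
        norm_num
      calc 2 * (2 + t) * B ^ (ε - 1) ≤ 2 * (2 + t) * (40 * t ^ (-(7 / 4) : ℝ)) :=
            mul_le_mul_of_nonneg_left h6 (by linarith)
        _ ≤ 2 * (t + t) * (40 * t ^ (-(7 / 4) : ℝ)) := by
            apply mul_le_mul_of_nonneg_right _ (by positivity)
            linarith
        _ = 160 * t ^ (-(3 / 4) : ℝ) := by rw [← e1]; ring
    have e2 : riemannZeta ((1 : ℂ) - ε + t * I) - PS ((1 : ℂ) - ε + t * I) N =
        (riemannZeta ((1 : ℂ) - ε + t * I) - PS ((1 : ℂ) - ε + t * I) (2 ^ K * N)) +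
        (PS ((1 : ℂ) - ε + t * I) (2 ^ K * N) - PS ((1 : ℂ) - ε + t * I) N) := by ring
    rw [e2]
    refine (norm_add_le _ _).trans ?_
    nlinarith
  · -- short range
    have htl := tail' hε1 hε4 hs2 hN
    have htN : t ≤ 5 * (N : ℝ) ^ (1 / 2 : ℝ) := by
      rw [← Real.sqrt_eq_rpow]
      have h5 : t ^ 2 ≤ 25 * N := by linarith
      have h6 : (5 : ℝ) * Real.sqrt N = Real.sqrt (25 * N) := by
        rw [Real.sqrt_mul (by norm_num), show (25 : ℝ) = 5 ^ 2 by norm_num, Real.sqrt_sq (by norm_num)]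
      rw [h6]
      exact Real.le_sqrt_of_sq_le h5
    have h7 : (N : ℝ) ^ ε / t ≤ (N : ℝ) ^ (-c) := by
      rw [div_le_iff₀ ht0]
      calc (N : ℝ) ^ ε ≤ (N : ℝ) ^ (-c + a) := Real.rpow_le_rpow_of_exponent_le hN' (by linarith)
        _ = (N : ℝ) ^ (-c) * (N : ℝ) ^ a := Real.rpow_add hN0 _ _
        _ ≤ (N : ℝ) ^ (-c) * t := mul_le_mul_of_nonneg_left h1 hNc.le
    have h8 : 2 * (2 + t) * (N : ℝ) ^ (ε - 1) ≤ 20 * (N : ℝ) ^ (-c) := by
      have h9 : (N : ℝ) ^ (1 / 2 : ℝ) * (N : ℝ) ^ (ε - 1) ≤ (N : ℝ) ^ (-c) := by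
        rw [← Real.rpow_add hN0]
        exact Real.rpow_le_rpow_of_exponent_le hN' (by linarith)
      calc 2 * (2 + t) * (N : ℝ) ^ (ε - 1) ≤ 2 * (t + t) * (N : ℝ) ^ (ε - 1) := by
            apply mul_le_mul_of_nonneg_right _ (by positivity)
            linarith
        _ ≤ 2 * (5 * (N : ℝ) ^ (1 / 2 : ℝ) + 5 * (N : ℝ) ^ (1 / 2 : ℝ)) * (N : ℝ) ^ (ε - 1) := by
            apply mul_le_mul_of_nonneg_right _ (by positivity)
            linarith
        _ = 20 * ((N : ℝ) ^ (1 / 2 : ℝ) * (N : ℝ) ^ (ε - 1)) := by ring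
        _ ≤ 20 * (N : ℝ) ^ (-c) := mul_le_mul_of_nonneg_left h9 (by norm_num)
    refine htl.trans ?_
    nlinarith

end Pool.Agent.Run7.h508.Pt
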