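import Pool.Agent.Run7.h508.Pt.Trn
import Pool.Agent.H986R2.K4.SAB

set_option autoImplicit false

/-!
# Zeros of truncations and zeros of zeta
-/

namespace Pool.Agent.Run7.h508.Pt

open Complex Filter Topology Finset
open Pool.Agent.H986R2.K4.VdCAux

/-- zeta for `Re s ≥ 2` -/
lemma zeta_two {s : ℂ} (hs : 2 ≤ s.re) : 1 / 3 ≤ ‖riemannZeta s‖ ∧ ‖riemannZeta s‖ ≤ 5 / 3 := by
  have h1 : (1 : ℝ) < s.re := by linarith
  have hz := zeta_eq_tsum_one_div_nat_add_one_cpow h1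
  have hsum : Summable fun n : ℕ => 1 / ((n : ℂ) + 1) ^ s := by
    have h2 := Complex.summable_one_div_nat_cpow.2 h1
    have h3 := (summable_nat_add_iff 1).2 h2
    refine h3.congr fun n => ?_
    push_cast
    rfl
  have hkey : ‖riemannZeta s - 1‖ ≤ 2 / 3 := by
    rw [hz, ← hsum.sum_add_tsum_nat_add 1]
    have e0 : ∑ n ∈ range 1, 1 / ((n : ℂ) + 1) ^ s = 1 := by simp
    rw [e0, add_sub_cancel_left]
    have hterm : ∀ n : ℕ, ‖1 / (((n + 1 : ℕ) : ℂ) + 1) ^ s‖ ≤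
        1 / ((n : ℝ) + 3 / 2) - 1 / ((n : ℝ) + 1 + 3 / 2) := by
      intro n
      have e1 : (((n + 1 : ℕ) : ℂ) + 1) = (((n + 2 : ℕ) : ℝ) : ℂ) := by push_cast; ring
      rw [norm_div, norm_one, e1, Complex.norm_cpow_eq_rpow_re_of_pos (by positivity)]
      have h3 : ((n + 2 : ℕ) : ℝ) ^ (2 : ℝ) ≤ ((n + 2 : ℕ) : ℝ) ^ s.re :=
        Real.rpow_le_rpow_of_exponent_le (by push_cast; linarith [Nat.cast_nonneg (α := ℝ) n]) hs
      rw [show (2 : ℝ) = ((2 : ℕ) : ℝ) by norm_num, Real.rpow_natCast] at h3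
      have h4 : 1 / ((n + 2 : ℕ) : ℝ) ^ s.re ≤ 1 / ((n + 2 : ℕ) : ℝ) ^ 2 :=
        one_div_le_one_div_of_le (by positivity) h3
      refine h4.trans ?_
      have h5 : (0 : ℝ) ≤ n := Nat.cast_nonneg n
      push_cast
      rw [div_sub_div _ _ (by positivity) (by positivity), div_le_div_iff₀ (by positivity) (by positivity)]
      nlinarith
    have hbd : ∀ m : ℕ, ∑ n ∈ range m, ‖1 / (((n + 1 : ℕ) : ℂ) + 1) ^ s‖ ≤ 2 / 3 := by
      intro m
      refine (sum_le_sum fun n _ => hterm n).trans ?_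
      have h3 := Finset.sum_range_sub' (fun n : ℕ => 1 / ((n : ℝ) + 3 / 2)) m
      have h4 : ∑ n ∈ range m, (1 / ((n : ℝ) + 3 / 2) - 1 / ((n : ℝ) + 1 + 3 / 2)) =
          ∑ n ∈ range m, (1 / ((n : ℝ) + 3 / 2) - 1 / (((n + 1 : ℕ) : ℝ) + 3 / 2)) := by
        refine sum_congr rfl fun n _ => ?_
        push_cast
        ring_nf
      rw [h4, h3]
      have h5 : 0 ≤ 1 / ((m : ℝ) + 3 / 2) := by positivity
      simp only [Nat.cast_zero, zero_add]
      norm_num at h5 ⊢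
      linarith
    have hs1 : Summable fun n : ℕ => ‖1 / (((n + 1 : ℕ) : ℂ) + 1) ^ s‖ :=
      summable_of_sum_range_le (fun _ => norm_nonneg _) hbd
    exact (norm_tsum_le_tsum_norm hs1).trans (Real.tsum_le_of_sum_range_le (fun _ => norm_nonneg _) hbd)
  have h2 := norm_sub_norm_le (1 : ℂ) (riemannZeta s)
  have h3 := norm_sub_norm_le (riemannZeta s) (1 : ℂ)
  rw [norm_sub_rev] at h2
  rw [norm_one] at h2 h3
  constructor <;> linarith

/-- zeta for `Re s ≥ 3 / 4` -/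
lemma zeta_up {s : ℂ} (hs : 3 / 4 ≤ s.re) (ht : 2 ≤ s.im) : ‖riemannZeta s‖ ≤ 10 * s.im := by
  rcases le_or_gt 2 s.re with h | h
  · have := (zeta_two h).2
    linarith
  · have h1 := tail' (ε := 1 - s.re) (t := s.im) (by linarith) (by linarith) ht (N := 1) le_rfl
    have e1 : ((1 : ℂ) - ((1 - s.re : ℝ) : ℂ) + s.im * I) = s := by
      apply Complex.ext
      · simp
      · simp
    rw [e1] at h1
    have e2 : PS s 1 = 1 := by simp [PS]
    simp only [Nat.cast_one, Real.one_rpow, mul_one] at h1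
    rw [e2] at h1
    have h2 := norm_sub_norm_le (riemannZeta s) (1 : ℂ)
    rw [norm_one] at h2
    have h3 : 1 / s.im ≤ 1 := by
      rw [div_le_one (by linarith)]
      linarith
    linarith

/-- Borel-Caratheodory and three circles -/
lemma box_low (κ ε₀ K : ℝ) (hκ : 0 < κ) (hε₀ : 0 < ε₀) (hε₀' : ε₀ ≤ 1 / 4) (hK : 0 < K) : ∃ T : ℝ,
    ∀ (F : ℂ → ℂ) (γ x : ℝ), T ≤ γ →
    (∀ s : ℂ, x < s.re → s.re ≤ x + 10 → |s.im - γ| ≤ 10 → DifferentiableAt ℂ F s ∧ F s ≠ 0 ∧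
      ‖F s‖ ≤ γ ^ K) →
    (∀ s : ℂ, x + 3 / 2 ≤ s.re → s.re ≤ x + 10 → |s.im - γ| ≤ 10 → 1 / 8 ≤ ‖F s‖ ∧ ‖F s‖ ≤ 8) →
    ∀ s : ℂ, x + ε₀ ≤ s.re → s.re ≤ x + 3 → |s.im - γ| ≤ 3 → γ ^ (-κ) ≤ ‖F s‖ := by
  obtain ⟨ε, hε, h⟩ := Pool.Agent.H986R2.K4.sab ε₀ κ K hε₀ hε₀' hκ hK
  refine ⟨max (Real.exp 1) (Real.exp (Real.log 8 / ε)), fun F γ x hT h1 h2 s hs1 hs2 hs3 => ?_⟩
  have hγe : Real.exp 1 ≤ γ := (le_max_left _ _).trans hT
  have hγ0 : 0 < γ := (Real.exp_pos 1).trans_le hγe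
  have hL1 : 1 ≤ Real.log γ := by rwa [Real.le_log_iff_exp_le hγ0]
  have hL2 : Real.log 8 ≤ ε * Real.log γ := by
    have h3 : Real.log 8 / ε ≤ Real.log γ := by
      rw [Real.le_log_iff_exp_le hγ0]
      exact (le_max_right _ _).trans hT
    rw [div_le_iff₀ hε] at h3
    linarith
  obtain ⟨c, hc⟩ : ∃ c : ℂ, c = (x : ℂ) + γ * I := ⟨_, rfl⟩
  have hcre : c.re = x := by rw [hc]; simp
  have hcim : c.im = γ := by rw [hc]; simp
  have hexp : ∀ r : ℝ, γ ^ r = Real.exp (r * Real.log γ) := by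
    intro r
    rw [Real.rpow_def_of_pos hγ0, mul_comm]
  have h4 := h (Real.log γ) (fun u => F (u + c)) hL1 (by
    intro u hu1 hu2 hu3
    obtain ⟨k1, k2, k3⟩ := h1 (u + c) (by rw [add_re, hcre]; linarith) (by rw [add_re, hcre]; linarith)
      (by rw [add_im, hcim, add_sub_cancel_right]; exact hu3)
    refine ⟨?_, k2, ?_⟩
    · exact DifferentiableAt.comp u k1 (differentiableAt_id.add_const c)
    · rw [← hexp]
      exact k3) (by
    intro u hu1 hu2 hu3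
    obtain ⟨k1, k2⟩ := h2 (u + c) (by rw [add_re, hcre]; linarith) (by rw [add_re, hcre]; linarith)
      (by rw [add_im, hcim, add_sub_cancel_right]; exact hu3)
    have e8 : Real.exp (Real.log 8) = 8 := Real.exp_log (by norm_num)
    constructor
    · calc Real.exp (-(ε * Real.log γ)) ≤ Real.exp (-Real.log 8) := Real.exp_le_exp.2 (by linarith)
        _ = 1 / 8 := by rw [Real.exp_neg, e8, one_div]
        _ ≤ _ := k1
    · calc ‖F (u + c)‖ ≤ 8 := k2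
        _ = Real.exp (Real.log 8) := e8.symm
        _ ≤ _ := Real.exp_le_exp.2 hL2)
  have h5 := (h4 (s - c) (by rw [sub_re, hcre]; linarith) (by rw [sub_re, hcre]; linarith)
    (by rw [sub_im, hcim]; exact hs3)).2.1
  rw [sub_add_cancel] at h5
  rw [hexp, neg_mul]
  exact h5

lemma near_im {N : ℕ} {a A γ t : ℝ} (hN : 1 ≤ N) (hγ : 25 ≤ γ) (h1 : (N : ℝ) ^ a ≤ γ)
    (h2 : γ ≤ (N : ℝ) ^ A) (ht : |t - γ| ≤ 10) :
    2 ≤ t ∧ (N : ℝ) ^ (a / 2) ≤ t ∧ t ≤ (N : ℝ) ^ (2 * A) := by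
  have hN0 : (0 : ℝ) < N := by exact_mod_cast hN
  rw [abs_le] at ht
  refine ⟨by linarith, ?_, ?_⟩
  · have h3 : (N : ℝ) ^ (a / 2) = Real.sqrt ((N : ℝ) ^ a) := by
      rw [Real.sqrt_eq_rpow, ← Real.rpow_mul hN0.le]
      congr 1
      ring
    rw [h3]
    refine (Real.sqrt_le_sqrt h1).trans ?_
    refine (Real.sqrt_le_iff.2 ⟨by linarith, ?_⟩ : Real.sqrt γ ≤ γ - 10).trans (by linarith)
    nlinarith
  · have h3 : (N : ℝ) ^ (2 * A) = ((N : ℝ) ^ A) ^ 2 := by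
      rw [← Real.rpow_natCast, ← Real.rpow_mul hN0.le]
      congr 1
      push_cast
      ring
    rw [h3]
    nlinarith

lemma TS_diff (b : ℕ → ℂ) (N : ℕ) (s : ℂ) : DifferentiableAt ℂ (TS b N) s := by
  unfold TS
  apply DifferentiableAt.fun_sum
  intro n _
  have h1 : (((n + 1 : ℕ) : ℂ)) ≠ 0 := by exact_mod_cast Nat.succ_ne_zero n
  exact (DifferentiableAt.const_cpow differentiableAt_id.neg (Or.inl h1)).const_mul _

/-- transfer of zeros -/
theorem transfer (a A C δ : ℝ) (ha : 0 < a) (hA : 0 < A) (hC : 0 < C) (hδ : 0 < δ) :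
    ∃ c : ℝ, 0 < c ∧ ∀ ε : ℝ, 0 < ε → ∃ T : ℝ, ∀ (N : ℕ) (b : ℕ → ℂ), 1 ≤ N → IsTr C δ N b →
      (∀ ρ : ℂ, riemannZeta ρ = 0 → 1 - c ≤ ρ.re → T ≤ ρ.im → (N : ℝ) ^ a ≤ ρ.im → ρ.im ≤ (N : ℝ) ^ A →
        ∃ s : ℂ, TS b N s = 0 ∧ ρ.re - ε < s.re ∧ |s.im - ρ.im| ≤ 10) ∧
      (∀ s : ℂ, TS b N s = 0 → 1 - c ≤ s.re → T ≤ s.im → (N : ℝ) ^ a ≤ s.im → s.im ≤ (N : ℝ) ^ A →
        ∃ ρ : ℂ, riemannZeta ρ = 0 ∧ s.re - ε < ρ.re ∧ |ρ.im - s.im| ≤ 10) := by
  obtain ⟨e₀, c₁, C', he₀, he₀', hc₁, hC', hcl⟩ := tclose (a / 2) (2 * A) C δ (by linarith) (by linarith) hC hδ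
  refine ⟨e₀ / 2, by linarith, fun ε hε => ?_⟩
  obtain ⟨ε', hε'⟩ : ∃ ε' : ℝ, ε' = min ε (e₀ / 2) := ⟨_, rfl⟩
  have hε1 : ε' ≤ ε := by rw [hε']; exact min_le_left _ _
  have hε2 : ε' ≤ e₀ / 2 := by rw [hε']; exact min_le_right _ _
  have hε0 : 0 < ε' := by rw [hε']; positivity
  obtain ⟨κ, hκ⟩ : ∃ κ : ℝ, κ = c₁ / (2 * A) := ⟨_, rfl⟩
  have hκ0 : 0 < κ := by rw [hκ]; positivity
  obtain ⟨T₀, hT₀⟩ := box_low κ ε' 2 hκ0 hε0 (by linarith) (by norm_num)
  -- largeness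
  have hev : ∀ᶠ γ : ℝ in atTop, C' * γ ^ (-(2 * κ)) < γ ^ (-κ) ∧ C' * γ ^ (-(2 * κ)) ≤ 1 / 8 := by
    have h1 : Tendsto (fun γ : ℝ => C' * γ ^ (-κ)) atTop (𝓝 0) := by
      have := (tendsto_rpow_neg_atTop hκ0).const_mul C'
      rwa [mul_zero] at this
    have h2 : Tendsto (fun γ : ℝ => C' * γ ^ (-(2 * κ))) atTop (𝓝 0) := by
      have := (tendsto_rpow_neg_atTop (show (0 : ℝ) < 2 * κ by linarith)).const_mul C'
      rwa [mul_zero] at this
    filter_upwards [h1.eventually (gt_mem_nhds (show (0 : ℝ) < 1 by norm_num)),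
      h2.eventually (gt_mem_nhds (show (0 : ℝ) < 1 / 8 by norm_num)), eventually_gt_atTop 0] with γ k1 k2 k3
    refine ⟨?_, k2.le⟩
    have e1 : γ ^ (-(2 * κ)) = γ ^ (-κ) * γ ^ (-κ) := by
      rw [← Real.rpow_add k3]
      congr 1
      ring
    rw [e1, ← mul_assoc]
    have := Real.rpow_pos_of_pos k3 (-κ)
    nlinarith
  obtain ⟨T₁, hT₁⟩ := eventually_atTop.1 hev
  refine ⟨max (max T₀ T₁) 100, fun N b hN hb => ?_⟩
  have hN0 : (0 : ℝ) < N := by exact_mod_cast hN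
  -- closeness in the box
  have hclose : ∀ γ : ℝ, max (max T₀ T₁) 100 ≤ γ → (N : ℝ) ^ a ≤ γ → γ ≤ (N : ℝ) ^ A → ∀ s : ℂ,
      |s.im - γ| ≤ 10 → 1 - e₀ ≤ s.re → ‖TS b N s - riemannZeta s‖ ≤ C' * γ ^ (-(2 * κ)) := by
    intro γ hγ h1 h2 s hs1 hs2
    have hγ100 : 100 ≤ γ := (le_max_right _ _).trans hγ
    obtain ⟨k1, k2, k3⟩ := near_im hN (by linarith) h1 h2 hs1
    refine (hcl N s hN k1 k2 k3 hs2 b hb).trans (mul_le_mul_of_nonneg_left ?_ hC'.le)
    have h3 : γ ^ (1 / A) ≤ N := by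
      calc γ ^ (1 / A) ≤ ((N : ℝ) ^ A) ^ (1 / A) := Real.rpow_le_rpow (by linarith) h2 (by positivity)
        _ = N := by
            rw [← Real.rpow_mul hN0.le, mul_one_div_cancel hA.ne', Real.rpow_one]
    calc (N : ℝ) ^ (-c₁) ≤ (γ ^ (1 / A)) ^ (-c₁) :=
          Real.rpow_le_rpow_of_nonpos (by positivity) h3 (by linarith)
      _ = γ ^ (-(2 * κ)) := by
          rw [← Real.rpow_mul (by linarith), hκ]
          congr 1
          field_simp
  have hzup : ∀ γ : ℝ, 100 ≤ γ → ∀ s : ℂ, |s.im - γ| ≤ 10 → 3 / 4 ≤ s.re →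
      ‖riemannZeta s‖ ≤ 10 * (γ + 10) := by
    intro γ hγ s hs1 hs2
    rw [abs_le] at hs1
    have := zeta_up hs2 (by linarith)
    linarith
  have hpow : ∀ γ : ℝ, 100 ≤ γ → 10 * (γ + 10) + 1 ≤ γ ^ (2 : ℝ) := by
    intro γ hγ
    rw [show (2 : ℝ) = ((2 : ℕ) : ℝ) by norm_num, Real.rpow_natCast]
    nlinarith
  constructor
  · intro ρ hρ hρ1 hρT hρa hρA
    by_contra hcon
    push Not at hcon
    have hT0 : T₀ ≤ ρ.im := ((le_max_left _ _).trans (le_max_left _ _)).trans hρT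
    have hT1 : T₁ ≤ ρ.im := ((le_max_right _ _).trans (le_max_left _ _)).trans hρT
    have h100 : 100 ≤ ρ.im := (le_max_right _ _).trans hρT
    obtain ⟨k1, k2⟩ := hT₁ _ hT1
    have hre1 : ρ.re < 2 := by
      by_contra h
      push Not at h
      have := (zeta_two h).1
      rw [hρ, norm_zero] at this
      linarith
    have hlow := hT₀ (TS b N) ρ.im (ρ.re - ε') hT0 (by
      intro s hs1 hs2 hs3
      refine ⟨TS_diff b N s, ?_, ?_⟩
      · intro h0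
        have h1 := hcon s h0 (by linarith)
        linarith
      · have h1 := hclose ρ.im hρT hρa hρA s hs3 (by linarith)
        have h2 := hzup ρ.im h100 s hs3 (by linarith)
        have h3 := norm_sub_norm_le (TS b N s) (riemannZeta s)
        have h4 := hpow ρ.im h100
        linarith) (by
      intro s hs1 hs2 hs3
      have h1 := hclose ρ.im hρT hρa hρA s hs3 (by linarith)
      obtain ⟨h2, h2'⟩ := zeta_two (s := s) (by linarith)
      have h3 := norm_sub_norm_le (TS b N s) (riemannZeta s)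
      have h4 := norm_sub_norm_le (riemannZeta s) (TS b N s)
      rw [norm_sub_rev] at h4
      constructor <;> linarith) ρ (by linarith) (by linarith) (by rw [sub_self, abs_zero]; norm_num)
    have h5 := hclose ρ.im hρT hρa hρA ρ (by rw [sub_self, abs_zero]; norm_num) (by linarith)
    rw [hρ, sub_zero] at h5
    linarith
  · intro ρ hρ hρ1 hρT hρa hρA
    by_contra hcon
    push Not at hcon
    have hT0 : T₀ ≤ ρ.im := ((le_max_left _ _).trans (le_max_left _ _)).trans hρT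
    have hT1 : T₁ ≤ ρ.im := ((le_max_right _ _).trans (le_max_left _ _)).trans hρT
    have h100 : 100 ≤ ρ.im := (le_max_right _ _).trans hρT
    obtain ⟨k1, k2⟩ := hT₁ _ hT1
    have h5 := hclose ρ.im hρT hρa hρA ρ (by rw [sub_self, abs_zero]; norm_num) (by linarith)
    rw [hρ, zero_sub, norm_neg] at h5
    have hre1 : ρ.re < 2 := by
      by_contra h
      push Not at h
      have := (zeta_two h).1
      linarith
    have hlow := hT₀ riemannZeta ρ.im (ρ.re - ε') hT0 (by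
      intro s hs1 hs2 hs3
      refine ⟨?_, ?_, ?_⟩
      · apply differentiableAt_riemannZeta
        intro h1
        rw [h1, one_im, zero_sub, abs_neg, abs_le] at hs3
        linarith
      · intro h0
        have h1 := hcon s h0 (by linarith)
        linarith
      · have h2 := hzup ρ.im h100 s hs3 (by linarith)
        have h4 := hpow ρ.im h100
        linarith) (by
      intro s hs1 hs2 hs3
      obtain ⟨h2, h2'⟩ := zeta_two (s := s) (by linarith)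
      constructor <;> linarith) ρ (by linarith) (by linarith) (by rw [sub_self, abs_zero]; norm_num)
    linarith

end Pool.Agent.Run7.h508.Pt
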