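import Pool.Agent.Run7.h508.Pt.Cls

set_option autoImplicit false

/-!
# Truncations of bounded variation
-/

namespace Pool.Agent.Run7.h508.Pt

open Complex Filter Topology Finset
open Pool.Agent.H986R2.K4.VdCAux

/-- truncations of bounded variation -/
structure IsTr (C δ : ℝ) (N : ℕ) (a : ℕ → ℂ) : Prop where
  zero : ∀ n, N < n → a n = 0
  one : ‖a 1 - 1‖ ≤ C * (N : ℝ) ^ (-δ)
  var : ∀ m, 1 ≤ m → m ≤ N → ∑ n ∈ range m, ‖a (n + 1) - a (n + 2)‖ ≤ C * ((m : ℝ) / N) ^ δ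

/-- the truncated sum -/
noncomputable def TS (a : ℕ → ℂ) (N : ℕ) (s : ℂ) : ℂ := ∑ n ∈ range N, a (n + 1) * (((n + 1 : ℕ) : ℂ)) ^ (-s)

lemma TS_abel (a : ℕ → ℂ) (s : ℂ) (N : ℕ) : TS a N s =
    ∑ m ∈ range N, (a (m + 1) - a (m + 2)) * PS s (m + 1) + a (N + 1) * PS s N := by
  induction N with
  | zero => simp [TS, PS]
  | succ N ih =>
    unfold TS at ih ⊢
    rw [sum_range_succ, ih, sum_range_succ]
    have h1 : PS s (N + 1) = PS s N + (((N + 1 : ℕ) : ℂ)) ^ (-s) := by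
      unfold PS
      rw [sum_range_succ]
    rw [h1]
    ring

lemma sum_diff (a : ℕ → ℂ) (N : ℕ) : ∑ m ∈ range N, (a (m + 1) - a (m + 2)) = a 1 - a (N + 1) := by
  have := Finset.sum_range_sub' (fun m => a (m + 1)) N
  simpa using this

lemma TS_sub {a : ℕ → ℂ} {N : ℕ} (h : a (N + 1) = 0) (s : ℂ) : TS a N s - riemannZeta s =
    ∑ m ∈ range N, (a (m + 1) - a (m + 2)) * (PS s (m + 1) - riemannZeta s) + (a 1 - 1) * riemannZeta s := by
  have h1 := sum_diff a N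
  rw [h, sub_zero] at h1
  rw [TS_abel, h, zero_mul, add_zero]
  simp only [mul_sub, sum_sub_distrib]
  rw [← sum_mul, h1]
  ring

lemma norm_term {s : ℂ} (n : ℕ) : ‖(((n + 1 : ℕ) : ℂ)) ^ (-s)‖ = ((n : ℝ) + 1) ^ (-s.re) := by
  have h1 : (((n + 1 : ℕ) : ℂ)) = (((n : ℝ) + 1 : ℝ) : ℂ) := by push_cast; rfl
  rw [h1, Complex.norm_cpow_eq_rpow_re_of_pos (by positivity), neg_re]

/-- crude bound -/
lemma crude {ε : ℝ} (hε : 0 < ε) {J : ℕ} (hJ : 1 ≤ J) :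
    ∑ n ∈ range J, ((n : ℝ) + 1) ^ (ε - 1) ≤ (1 + 1 / ε) * (J : ℝ) ^ (2 * ε) := by
  have hJ' : (1 : ℝ) ≤ J := by exact_mod_cast hJ
  have hJ0 : (0 : ℝ) < J := by linarith
  have h1 : ∑ n ∈ range J, ((n : ℝ) + 1) ^ (ε - 1) ≤ ∑ n ∈ range J, (J : ℝ) ^ ε * ((n : ℝ) + 1)⁻¹ := by
    refine sum_le_sum fun n hn => ?_
    rw [Finset.mem_range] at hn
    have hn' : (n : ℝ) + 1 ≤ J := by exact_mod_cast hn
    rw [Real.rpow_sub (by positivity), Real.rpow_one, div_eq_mul_inv]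
    exact mul_le_mul_of_nonneg_right (Real.rpow_le_rpow (by positivity) hn' hε.le) (by positivity)
  have h2 : ∑ n ∈ range J, ((n : ℝ) + 1)⁻¹ ≤ 1 + Real.log J := by
    have h3 := harmonic_le_one_add_log J
    have h4 : ((harmonic J : ℚ) : ℝ) = ∑ n ∈ range J, ((n : ℝ) + 1)⁻¹ := by
      unfold harmonic
      push_cast
      rfl
    rw [← h4]
    exact h3
  have h3 : Real.log J ≤ (J : ℝ) ^ ε / ε := Real.log_le_rpow_div hJ0.le hε
  have h4 : 1 ≤ (J : ℝ) ^ ε := Real.one_le_rpow hJ' hε.le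
  calc ∑ n ∈ range J, ((n : ℝ) + 1) ^ (ε - 1) ≤ (J : ℝ) ^ ε * ∑ n ∈ range J, ((n : ℝ) + 1)⁻¹ := by
        rw [mul_sum]; exact h1
    _ ≤ (J : ℝ) ^ ε * ((J : ℝ) ^ ε + (J : ℝ) ^ ε / ε) := by
        apply mul_le_mul_of_nonneg_left _ (by positivity)
        linarith
    _ = (1 + 1 / ε) * (J : ℝ) ^ (2 * ε) := by
        rw [two_mul, Real.rpow_add hJ0]
        ring

lemma ps_diff {ε : ℝ} (hε : 0 < ε) {s : ℂ} (hs : 1 - ε ≤ s.re) {m J : ℕ} (hmJ : m ≤ J) (hJ : 1 ≤ J) :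
    ‖PS s J - PS s m‖ ≤ (1 + 1 / ε) * (J : ℝ) ^ (2 * ε) := by
  refine le_trans ?_ (crude hε hJ)
  have h1 : PS s J - PS s m = ∑ n ∈ Finset.Ico m J, (((n + 1 : ℕ) : ℂ)) ^ (-s) := by
    unfold PS
    rw [Finset.sum_Ico_eq_sub _ hmJ]
  rw [h1]
  calc ‖∑ n ∈ Finset.Ico m J, (((n + 1 : ℕ) : ℂ)) ^ (-s)‖ ≤
      ∑ n ∈ Finset.Ico m J, ((n : ℝ) + 1) ^ (ε - 1) := by
        refine (norm_sum_le _ _).trans (sum_le_sum fun n _ => ?_)
        rw [norm_term]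
        exact Real.rpow_le_rpow_of_exponent_le (by linarith [Nat.cast_nonneg (α := ℝ) n]) (by linarith)
    _ ≤ ∑ n ∈ range J, ((n : ℝ) + 1) ^ (ε - 1) := by
        refine sum_le_sum_of_subset_of_nonneg ?_ fun n _ _ => by positivity
        intro n hn
        rw [Finset.mem_range]
        exact (Finset.mem_Ico.1 hn).2

/-- truncations are close to zeta for polynomial heights -/
theorem tclose (a A C δ : ℝ) (ha : 0 < a) (hA : 0 < A) (hC : 0 < C) (hδ : 0 < δ) :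
    ∃ e₀ c C' : ℝ, 0 < e₀ ∧ e₀ ≤ 1 / 4 ∧ 0 < c ∧ 0 < C' ∧
    ∀ (N : ℕ) (s : ℂ), 1 ≤ N → 2 ≤ s.im → (N : ℝ) ^ a ≤ s.im → s.im ≤ (N : ℝ) ^ A → 1 - e₀ ≤ s.re →
      ∀ b : ℕ → ℂ, IsTr C δ N b → ‖TS b N s - riemannZeta s‖ ≤ C' * (N : ℝ) ^ (-c) := by
  obtain ⟨e₁, c₁, C₁, he₁, he₁', hc₁, hC₁, hcl⟩ := close (a / 2) (2 * A) (by linarith) (by linarith)
  obtain ⟨e₀, he₀⟩ : ∃ e₀ : ℝ, e₀ = min e₁ (δ / 4) := ⟨_, rfl⟩
  have he1 : e₀ ≤ e₁ := by rw [he₀]; exact min_le_left _ _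
  have he2 : e₀ ≤ δ / 4 := by rw [he₀]; exact min_le_right _ _
  have he0 : 0 < e₀ := by rw [he₀]; positivity
  obtain ⟨c, hc⟩ : ∃ c : ℝ, c = min (c₁ / 2) (δ / 4) := ⟨_, rfl⟩
  have hc1 : c ≤ c₁ / 2 := by rw [hc]; exact min_le_left _ _
  have hc2 : c ≤ δ / 4 := by rw [hc]; exact min_le_right _ _
  have hc0 : 0 < c := by rw [hc]; positivity
  obtain ⟨K, hK⟩ : ∃ K : ℝ, K = (1 + 1 / e₀) * 2 + C₁ := ⟨_, rfl⟩
  have hK0 : 0 < K := by rw [hK]; positivity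
  refine ⟨e₀, c, C * K + C * C₁ + C * K, he0, he1.trans he₁', hc0, by positivity, ?_⟩
  intro N s hN hs2 h1 h2 hre b hb
  have hN' : (1 : ℝ) ≤ N := by exact_mod_cast hN
  have hN0 : (0 : ℝ) < N := by linarith
  obtain ⟨r, hr⟩ : ∃ r, r = Nat.sqrt N := ⟨_, rfl⟩
  have hr1 : 1 ≤ r := by
    rw [hr]
    exact Nat.sqrt_pos.2 hN
  have hrN : r ≤ N := by
    rw [hr]
    exact Nat.sqrt_le_self N
  have hr2 : (r : ℝ) ≤ (N : ℝ) ^ (1 / 2 : ℝ) := by
    rw [← Real.sqrt_eq_rpow, hr]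
    apply Real.le_sqrt_of_sq_le
    have := Nat.sqrt_le' N
    exact_mod_cast this
  have hr3 : (N : ℝ) ^ (1 / 2 : ℝ) ≤ (r + 1 : ℕ) := by
    rw [← Real.sqrt_eq_rpow, hr]
    apply Real.sqrt_le_iff.2
    refine ⟨by positivity, ?_⟩
    have := Nat.lt_succ_sqrt' N
    have h3 : (N : ℝ) < ((Nat.sqrt N).succ ^ 2 : ℕ) := by exact_mod_cast this
    push_cast at h3 ⊢
    exact h3.le
  have hNh : (1 : ℝ) ≤ (N : ℝ) ^ (1 / 2 : ℝ) := Real.one_le_rpow hN' (by norm_num)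
  -- large m
  have hlarge : ∀ m : ℕ, (N : ℝ) ^ (1 / 2 : ℝ) ≤ m → m ≤ 2 * N →
      ‖PS s m - riemannZeta s‖ ≤ C₁ * (N : ℝ) ^ (-c) := by
    intro m hm1 hm2
    have hm1' : (1 : ℝ) ≤ m := hNh.trans hm1
    have hm0 : 1 ≤ m := by exact_mod_cast hm1'
    have hm2' : (m : ℝ) ≤ 2 * N := by exact_mod_cast hm2
    have hma : (m : ℝ) ^ (a / 2) ≤ s.im := by
      rcases le_or_gt 2 N with hN2 | hN2
      · refine le_trans ?_ h1
        have hN2' : (2 : ℝ) ≤ N := by exact_mod_cast hN2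
        calc (m : ℝ) ^ (a / 2) ≤ ((N : ℝ) ^ 2) ^ (a / 2) :=
              Real.rpow_le_rpow (by positivity) (by nlinarith) (by linarith)
          _ = (N : ℝ) ^ a := by
              rw [← Real.rpow_natCast, ← Real.rpow_mul hN0.le]
              congr 1
              push_cast
              ring
      · have hN1 : N = 1 := by omega
        have hs1 : s.im ≤ 1 := by
          rw [hN1] at h2
          simpa using h2
        linarith
    have hmA : s.im ≤ (m : ℝ) ^ (2 * A) := by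
      refine h2.trans ?_
      calc (N : ℝ) ^ A = ((N : ℝ) ^ (1 / 2 : ℝ)) ^ (2 * A) := by
            rw [← Real.rpow_mul hN0.le]
            congr 1
            ring
        _ ≤ (m : ℝ) ^ (2 * A) := Real.rpow_le_rpow (by positivity) hm1 (by linarith)
    have h3 := hcl m s hm0 hs2 hma hmA (by linarith)
    rw [norm_sub_rev]
    refine h3.trans (mul_le_mul_of_nonneg_left ?_ hC₁.le)
    calc (m : ℝ) ^ (-c₁) ≤ ((N : ℝ) ^ (1 / 2 : ℝ)) ^ (-c₁) :=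
          Real.rpow_le_rpow_of_nonpos (by positivity) hm1 (by linarith)
      _ = (N : ℝ) ^ (1 / 2 * -c₁) := (Real.rpow_mul hN0.le _ _).symm
      _ ≤ (N : ℝ) ^ (-c) := Real.rpow_le_rpow_of_exponent_le hN' (by linarith)
  have hNc1 : (N : ℝ) ^ (-c) ≤ 1 := Real.rpow_le_one_of_one_le_of_nonpos hN' (by linarith)
  have hNe1 : 1 ≤ (N : ℝ) ^ e₀ := Real.one_le_rpow hN' he0.le
  have hrr : ((r + 1 : ℕ) : ℝ) ^ (2 * e₀) ≤ 2 * (N : ℝ) ^ e₀ := by
    calc ((r + 1 : ℕ) : ℝ) ^ (2 * e₀) ≤ (2 * (N : ℝ) ^ (1 / 2 : ℝ)) ^ (2 * e₀) := by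
          apply Real.rpow_le_rpow (by positivity) _ (by linarith)
          push_cast
          linarith
      _ = 2 ^ (2 * e₀) * (N : ℝ) ^ e₀ := by
          rw [Real.mul_rpow (by norm_num) (by positivity), ← Real.rpow_mul hN0.le]
          congr 2
          ring
      _ ≤ 2 * (N : ℝ) ^ e₀ := by
          apply mul_le_mul_of_nonneg_right _ (by positivity)
          calc (2 : ℝ) ^ (2 * e₀) ≤ 2 ^ (1 : ℝ) :=
                Real.rpow_le_rpow_of_exponent_le (by norm_num) (by linarith)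
            _ = 2 := Real.rpow_one 2
  have hk := hlarge (r + 1) hr3 (by omega)
  have hsmall : ∀ m : ℕ, m ≤ r + 1 → ‖PS s m - riemannZeta s‖ ≤ K * (N : ℝ) ^ e₀ := by
    intro m hm
    have h3 := ps_diff he0 hre hm (by omega : 1 ≤ r + 1)
    have e1 : PS s m - riemannZeta s = -(PS s (r + 1) - PS s m) + (PS s (r + 1) - riemannZeta s) := by ring
    rw [e1]
    refine (norm_add_le _ _).trans ?_
    rw [norm_neg]
    have h4 : (1 + 1 / e₀) * ((r + 1 : ℕ) : ℝ) ^ (2 * e₀) ≤ (1 + 1 / e₀) * (2 * (N : ℝ) ^ e₀) :=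
      mul_le_mul_of_nonneg_left hrr (by positivity)
    have h5 : C₁ * (N : ℝ) ^ (-c) ≤ C₁ * (N : ℝ) ^ e₀ :=
      mul_le_mul_of_nonneg_left (hNc1.trans hNe1) hC₁.le
    rw [hK]
    linarith
  have hzeta : ‖riemannZeta s‖ ≤ K * (N : ℝ) ^ e₀ := by
    have h3 := hsmall 0 (by omega)
    have h4 : PS s 0 = 0 := by simp [PS]
    rwa [h4, zero_sub, norm_neg] at h3
  rw [TS_sub (hb.zero (N + 1) (by omega))]
  refine (norm_add_le _ _).trans ?_
  have hvar := hb.var N hN le_rfl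
  rw [div_self hN0.ne', Real.one_rpow, mul_one] at hvar
  have hvar' := hb.var r hr1 hrN
  have hvr : C * ((r : ℝ) / N) ^ δ ≤ C * (N : ℝ) ^ (-(δ / 2)) := by
    apply mul_le_mul_of_nonneg_left _ hC.le
    have h3 : (r : ℝ) / N ≤ (N : ℝ) ^ (-(1 / 2) : ℝ) := by
      rw [div_le_iff₀ hN0]
      calc (r : ℝ) ≤ (N : ℝ) ^ (1 / 2 : ℝ) := hr2
        _ = (N : ℝ) ^ (-(1 / 2) : ℝ) * N := by
            nth_rewrite 3 [← Real.rpow_one (N : ℝ)]
            rw [← Real.rpow_add hN0]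
            norm_num
    calc ((r : ℝ) / N) ^ δ ≤ ((N : ℝ) ^ (-(1 / 2) : ℝ)) ^ δ := Real.rpow_le_rpow (by positivity) h3 hδ.le
      _ = (N : ℝ) ^ (-(δ / 2)) := by
          rw [← Real.rpow_mul hN0.le]
          congr 1
          ring
  have hprod : (N : ℝ) ^ (-(δ / 2)) * (N : ℝ) ^ e₀ ≤ (N : ℝ) ^ (-c) := by
    rw [← Real.rpow_add hN0]
    exact Real.rpow_le_rpow_of_exponent_le hN' (by linarith)
  have hS : ‖∑ m ∈ range N, (b (m + 1) - b (m + 2)) * (PS s (m + 1) - riemannZeta s)‖ ≤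
      (C * K + C * C₁) * (N : ℝ) ^ (-c) := by
    have hb1 : ∀ m ∈ range N, ‖(b (m + 1) - b (m + 2)) * (PS s (m + 1) - riemannZeta s)‖ ≤
        (if m < r then ‖b (m + 1) - b (m + 2)‖ * (K * (N : ℝ) ^ e₀) else 0) +
          ‖b (m + 1) - b (m + 2)‖ * (C₁ * (N : ℝ) ^ (-c)) := by
      intro m hm
      rw [Finset.mem_range] at hm
      rw [norm_mul]
      split_ifs with hmr
      · have h3 := mul_le_mul_of_nonneg_left (hsmall (m + 1) (by omega)) (norm_nonneg (b (m + 1) - b (m + 2)))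
        have h4 : 0 ≤ ‖b (m + 1) - b (m + 2)‖ * (C₁ * (N : ℝ) ^ (-c)) := by positivity
        linarith
      · rw [zero_add]
        refine mul_le_mul_of_nonneg_left (hlarge (m + 1) ?_ (by omega)) (norm_nonneg _)
        refine hr3.trans ?_
        exact_mod_cast (by omega : r + 1 ≤ m + 1)
    refine (norm_sum_le _ _).trans ((sum_le_sum hb1).trans ?_)
    rw [sum_add_distrib, ← sum_mul]
    have h3 : ∑ m ∈ range N, (if m < r then ‖b (m + 1) - b (m + 2)‖ * (K * (N : ℝ) ^ e₀) else 0) =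
        (∑ m ∈ range r, ‖b (m + 1) - b (m + 2)‖) * (K * (N : ℝ) ^ e₀) := by
      rw [← sum_filter, sum_mul]
      refine sum_congr ?_ fun _ _ => rfl
      ext m
      simp only [Finset.mem_filter, Finset.mem_range]
      omega
    rw [h3]
    have h4 : (∑ m ∈ range r, ‖b (m + 1) - b (m + 2)‖) * (K * (N : ℝ) ^ e₀) ≤
        C * K * (N : ℝ) ^ (-c) := by
      calc (∑ m ∈ range r, ‖b (m + 1) - b (m + 2)‖) * (K * (N : ℝ) ^ e₀) ≤
          (C * (N : ℝ) ^ (-(δ / 2))) * (K * (N : ℝ) ^ e₀) :=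
            mul_le_mul_of_nonneg_right (hvar'.trans hvr) (by positivity)
        _ = C * K * ((N : ℝ) ^ (-(δ / 2)) * (N : ℝ) ^ e₀) := by ring
        _ ≤ C * K * (N : ℝ) ^ (-c) := mul_le_mul_of_nonneg_left hprod (by positivity)
    have h5 : (∑ m ∈ range N, ‖b (m + 1) - b (m + 2)‖) * (C₁ * (N : ℝ) ^ (-c)) ≤
        C * (C₁ * (N : ℝ) ^ (-c)) := mul_le_mul_of_nonneg_right hvar (by positivity)
    linarith
  have hZ : ‖(b 1 - 1) * riemannZeta s‖ ≤ C * K * (N : ℝ) ^ (-c) := by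
    rw [norm_mul]
    calc ‖b 1 - 1‖ * ‖riemannZeta s‖ ≤ (C * (N : ℝ) ^ (-δ)) * (K * (N : ℝ) ^ e₀) :=
          mul_le_mul hb.one hzeta (norm_nonneg _) (by positivity)
      _ = C * K * ((N : ℝ) ^ (-δ) * (N : ℝ) ^ e₀) := by ring
      _ ≤ C * K * (N : ℝ) ^ (-c) := by
          apply mul_le_mul_of_nonneg_left _ (by positivity)
          refine le_trans ?_ hprod
          exact mul_le_mul_of_nonneg_right (Real.rpow_le_rpow_of_exponent_le hN' (by linarith))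
            (by positivity)
  linarith

end Pool.Agent.Run7.h508.Pt
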